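import Mathlib
import Pool.Agent.Run7.h20.MK.Ene
import Pool.Agent.Run7.h18.MK.Core
import Pool.Agent.H373R2.T7.LamZ2

/-!
# Sparse windows in mean square, for laws with arbitrary arcs and for laws of nearly minimal energy
-/

set_option autoImplicit false

namespace Pool.Agent.Run7.h20.MK

open Finset
open Pool.Agent.H807R2.Dav (ee norm_ee ee_add)
open Pool.Agent.H373R2.T7 (lamz lamI lamzI Vz Vz_inv_small lamz_nonneg ev_L')
open Pool.Agent.Run7.h794.MK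
open Pool.Agent.Run7.h27.MK (gI)
open Pool.Agent.Run7.h18.MK (core)
open Pool.Agent.Run7.h364.MK (cbrt_large)

lemma gI_eqz (z : ℕ) (m : ℤ) :
    gI (fun n => ArithmeticFunction.vonMangoldt n - lamz z n) m = lamI m - lamzI z m := by
  unfold gI lamI lamzI
  split_ifs
  · rfl
  · rw [sub_zero]

/-- the mean square over `n` of the difference of primes and model in a sparse window, arbitrary arcs -/
theorem ms_arcs (hA : S_ARC) : ∀ Bc U : ℕ, ∃ V : ℕ, ∀ T D : ℕ, ∃ C B0 : ℕ, ∀ E : ℕ, ∃ N₀ : ℕ, ∀ N : ℕ, N₀ ≤ N → ∀ z : ℕ,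
    Real.log N ^ B0 ≤ z → (z : ℝ) ≤ Real.log N ^ E → ∀ M : ℕ, 4 * (Bc + 1) * N ≤ M →
    ∀ (ι : Type) (Ω : Finset ι) (p : ι → ℝ) (Yv : ι → ℤ), (∀ ω ∈ Ω, 0 ≤ p ω) → ∑ ω ∈ Ω, p ω ≤ 1 →
    (∀ ω ∈ Ω, |Yv ω| ≤ Bc * N) → ∀ H : ℕ, (N : ℝ) ^ (1 / 3 : ℝ) * Real.log N ^ C ≤ H → H ≤ (Bc + 1) * N →
    ∀ Γ : Finset ℤ, (Γ.card : ℝ) ≤ Real.log N ^ T →
    (∀ t : ℤ, (∀ γ ∈ Γ, ∀ k : ℤ, Real.log N ^ D * (M / H) < |((t - γ - k * M : ℤ) : ℝ)|) →
      ‖∑ ω ∈ Ω, ((p ω : ℝ) : ℂ) * ee ((Yv ω : ℝ) * ((t : ℝ) / M))‖ ≤ 1 / Real.log N ^ V) →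
    ∑ n ∈ Icc 1 N, (∑ ω ∈ Ω, p ω * (lamI ((n : ℤ) + Yv ω) - lamzI z ((n : ℤ) + Yv ω))) ^ 2 ≤ N / Real.log N ^ U := by
  intro Bc U
  refine ⟨U + 2, fun T D => ?_⟩
  obtain ⟨V, hV⟩ : ∃ V, V = U + 2 := ⟨_, rfl⟩
  rw [← hV]
  obtain ⟨U', hU'⟩ : ∃ U', U' = T + D + U + 2 := ⟨_, rfl⟩
  obtain ⟨C', B0', hA⟩ := hA U'
  refine ⟨C' + 2, B0' + 1, fun E => ?_⟩
  obtain ⟨X₁, hA⟩ := hA E
  obtain ⟨n1, h1⟩ := Vz_inv_small E
  obtain ⟨N₁, hN₁⟩ := ev_L' (36 * (Bc + 1) + 2 ^ C' + 2 ^ B0' + Real.log (Bc + 1) + 100)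
  refine ⟨N₁ + X₁ + n1 + 3, fun N hN z hz1 hz2 M hMN ι Ω p Yv hp hp1 hY H hH1 hH2 Γ hΓc hφ => ?_⟩
  have hVz := h1 N (by omega)
  have hLK := hN₁ N (by omega)
  have hN0 : (0 : ℝ) < N := by exact_mod_cast (by omega : 0 < N)
  have hN1 : (1 : ℝ) ≤ N := by exact_mod_cast (by omega : 1 ≤ N)
  obtain ⟨L, hL⟩ : ∃ L, L = Real.log (N : ℝ) := ⟨_, rfl⟩
  rw [← hL] at hLK hVz hz1 hz2 hH1 hφ hΓc ⊢
  have hBc0 : (0 : ℝ) ≤ Bc := Nat.cast_nonneg _
  have h2C : (0 : ℝ) < 2 ^ C' := by positivity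
  have h2B : (0 : ℝ) < 2 ^ B0' := by positivity
  have hlB : 0 ≤ Real.log ((Bc : ℝ) + 1) := Real.log_nonneg (by linarith)
  have hL1 : 100 ≤ L := by linarith
  have hL2 : 36 * ((Bc : ℝ) + 1) ≤ L := by linarith
  have hL3 : (2 : ℝ) ^ C' ≤ L := by linarith
  have hL4 : Real.log ((Bc : ℝ) + 1) ≤ L := by linarith
  have hL5 : (2 : ℝ) ^ B0' ≤ L := by linarith
  have hL0 : 0 < L := by linarith
  have hL11 : 1 ≤ L := by linarith
  have hz0 : 1 ≤ z := by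
    have : (1 : ℝ) ≤ z := (one_le_pow₀ hL11).trans hz1
    exact_mod_cast this
  have hVz := hVz z hz0 hz2
  -- the parameters
  obtain ⟨X, hX⟩ : ∃ X : ℕ, X = (Bc + 1) * N := ⟨_, rfl⟩
  have hXr : (X : ℝ) = ((Bc : ℝ) + 1) * N := by rw [hX]; push_cast; ring
  have hNX : N ≤ X := by rw [hX]; exact Nat.le_mul_of_pos_left _ (by omega)
  have hX1 : 1 ≤ X := by omega
  have hX0 : (0 : ℝ) < X := by exact_mod_cast hX1
  have hNXr : (N : ℝ) ≤ X := by exact_mod_cast hNX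
  obtain ⟨LX, hLX⟩ : ∃ LX, LX = Real.log (X : ℝ) := ⟨_, rfl⟩
  have hLX1 : L ≤ LX := by rw [hL, hLX]; exact Real.log_le_log hN0 hNXr
  have hLX2 : LX ≤ 2 * L := by
    rw [hLX, hXr, Real.log_mul (by linarith) hN0.ne', ← hL]
    linarith
  have hLX0 : 0 < LX := by linarith
  have hHpos : 0 < H := by
    have h2 : (0 : ℝ) < H := lt_of_lt_of_le (by positivity) hH1
    exact_mod_cast h2
  have hH0 : (0 : ℝ) < H := by exact_mod_cast hHpos
  have hM4 : 4 * X ≤ M := by rw [hX, ← mul_assoc]; exact hMN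
  have hM1 : 1 ≤ M := by omega
  have hM0 : (0 : ℝ) < M := by exact_mod_cast hM1
  have hMX : 4 * (X : ℝ) ≤ M := by exact_mod_cast hM4
  have hHr : (H : ℝ) ≤ X := by
    have : H ≤ X := by rw [hX]; exact hH2
    exact_mod_cast this
  have hMH : 1 ≤ (M : ℝ) / H := by
    rw [le_div_iff₀ hH0]
    linarith
  obtain ⟨R, hR⟩ : ∃ R : ℝ, R = L ^ D * ((M : ℝ) / H) := ⟨_, rfl⟩
  have hLD : 1 ≤ L ^ D := one_le_pow₀ hL11
  have hR1 : 1 ≤ R := by
    rw [hR]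
    nlinarith
  obtain ⟨n, hn⟩ : ∃ n : ℕ, n = ⌊R⌋₊ := ⟨_, rfl⟩
  have hnR : (n : ℝ) ≤ R := by rw [hn]; exact Nat.floor_le (by linarith)
  have hRn : R < n + 1 := by rw [hn]; exact Nat.lt_floor_add_one R
  obtain ⟨J, hJ⟩ : ∃ J : ℕ, J = ⌈4 * L ^ D⌉₊ + 1 := ⟨_, rfl⟩
  have hJ1 : 4 * L ^ D + 1 ≤ J := by
    rw [hJ]
    push_cast
    have := Nat.le_ceil (4 * L ^ D)
    linarith
  have hJ2 : (J : ℝ) ≤ 6 * L ^ D := by
    rw [hJ]
    push_cast
    have := (Nat.ceil_lt_add_one (by positivity : 0 ≤ 4 * L ^ D)).le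
    linarith
  obtain ⟨w, hw⟩ : ∃ w : ℕ, w = M / H := ⟨_, rfl⟩
  have hw1 : (M : ℝ) / H ≤ 2 * w + 1 := by
    have h1 : M < H * (w + 1) := by rw [hw]; exact Nat.lt_mul_div_succ M hHpos
    have h2 : (M : ℝ) < H * (w + 1) := by exact_mod_cast h1
    rw [div_le_iff₀ hH0]
    have h3 : (0 : ℝ) ≤ w := Nat.cast_nonneg _
    nlinarith
  -- integer bounds
  have hYX : ∀ ω ∈ Ω, ∀ n' ∈ Icc 1 N, |(n' : ℤ) + Yv ω| ≤ X := by
    intro ω hω n' hn'
    rw [mem_Icc] at hn'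
    have h1 := abs_le.1 (hY ω hω)
    have h3 : (X : ℤ) = Bc * N + N := by rw [hX]; push_cast; ring
    rw [abs_le]
    constructor
    · have := h1.1
      omega
    · have := h1.2
      omega
  set g : ℕ → ℝ := fun n => ArithmeticFunction.vonMangoldt n - lamz z n with hg
  have hg2 : ∀ m ∈ Icc 1 X, g m ^ 2 ≤ 9 * L ^ 2 := by
    intro m hm
    rw [mem_Icc] at hm
    have h5 : ArithmeticFunction.vonMangoldt m ≤ LX := by
      rw [hLX]
      refine ArithmeticFunction.vonMangoldt_le_log.trans ?_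
      exact Real.log_le_log (by exact_mod_cast hm.1) (by exact_mod_cast hm.2)
    have h6 : 0 ≤ ArithmeticFunction.vonMangoldt m := ArithmeticFunction.vonMangoldt_nonneg
    have h7 := lamz_nonneg z m
    have h8 : lamz z m ≤ L := by
      unfold lamz
      split_ifs
      · exact hVz
      · exact hL0.le
    have h9 : |g m| ≤ 3 * L := by
      rw [hg, abs_le]
      constructor <;> simp only <;> linarith
    calc g m ^ 2 = |g m| ^ 2 := (sq_abs _).symm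
      _ ≤ (3 * L) ^ 2 := pow_le_pow_left₀ (abs_nonneg _) h9 2
      _ = _ := by ring
  obtain ⟨K, hK⟩ : ∃ K : ℝ, K = M * X / LX ^ U' := ⟨_, rfl⟩
  have hHC : (X : ℝ) ^ (1 / 3 : ℝ) * LX ^ C' ≤ H := by
    refine le_trans ?_ hH1
    have h1 : (X : ℝ) ^ (1 / 3 : ℝ) ≤ (N : ℝ) ^ (1 / 3 : ℝ) * L := by
      rw [hXr, Real.mul_rpow (by linarith) hN0.le, mul_comm]
      apply mul_le_mul_of_nonneg_left _ (by positivity)
      calc ((Bc : ℝ) + 1) ^ (1 / 3 : ℝ) ≤ ((Bc : ℝ) + 1) ^ (1 : ℝ) :=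
            Real.rpow_le_rpow_of_exponent_le (by linarith) (by norm_num)
        _ = (Bc : ℝ) + 1 := Real.rpow_one _
        _ ≤ L := by linarith
    have h2 : LX ^ C' ≤ L * L ^ C' := by
      calc LX ^ C' ≤ (2 * L) ^ C' := pow_le_pow_left₀ hLX0.le hLX2 _
        _ = 2 ^ C' * L ^ C' := mul_pow _ _ _
        _ ≤ L * L ^ C' := mul_le_mul_of_nonneg_right hL3 (by positivity)
    calc (X : ℝ) ^ (1 / 3 : ℝ) * LX ^ C' ≤ ((N : ℝ) ^ (1 / 3 : ℝ) * L) * (L * L ^ C') :=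
          mul_le_mul h1 h2 (by positivity) (by positivity)
      _ = (N : ℝ) ^ (1 / 3 : ℝ) * L ^ (C' + 2) := by ring
  have hKarc : ∀ γ ∈ Γ, ∀ c : ℤ, |c - γ| ≤ n + w →
      ∑ s ∈ Icc (-(w : ℤ)) (w : ℤ), ‖DF g X M (c + s)‖ ^ 2 ≤ K := by
    intro γ _ c _
    rw [hK, hw, hLX]
    apply hA X (by omega) z _ _ M (by omega) c H (by rw [← hLX]; exact hHC)
    · rw [← hLX]
      refine le_trans ?_ hz1
      calc LX ^ B0' ≤ (2 * L) ^ B0' := pow_le_pow_left₀ hLX0.le hLX2 _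
        _ = 2 ^ B0' * L ^ B0' := mul_pow _ _ _
        _ ≤ L * L ^ B0' := mul_le_mul_of_nonneg_right hL5 (by positivity)
        _ = L ^ (B0' + 1) := by ring
    · rw [← hLX]
      exact hz2.trans (pow_le_pow_left₀ hL0.le hLX1 _)
  have hJn : 2 * n + 1 ≤ J * (2 * w + 1) := by
    have h1 : (2 : ℝ) * n + 1 ≤ J * (2 * w + 1) := by
      calc (2 : ℝ) * n + 1 ≤ 2 * R + M / H := by linarith
        _ ≤ (4 * L ^ D + 1) * (M / H) := by
            rw [hR]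
            have : 0 ≤ L ^ D * ((M : ℝ) / H) := by positivity
            nlinarith
        _ ≤ J * (2 * w + 1) := mul_le_mul hJ1 hw1 (by positivity) (Nat.cast_nonneg _)
    exact_mod_cast h1
  have hcore := core Ω p Yv hp hp1 N X M w J n hM1
    (by omega) (by omega) g (fun v hv n' hn' => (abs_le.1 (hYX v hv n' hn')).2)
    (fun v hv n' hn' m hm => by
      have h1 := abs_le.1 (hYX v hv n' hn')
      rw [mem_Icc] at hm
      rw [abs_lt]
      constructor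
      · have := h1.2
        omega
      · have := h1.1
        omega)
    (9 * L ^ 2) K (1 / L ^ V) R hg2 Γ hKarc hJn hRn (by
      intro t ht
      apply hφ
      intro γ hγ k
      rw [← hR]
      exact ht γ hγ k)
  have hgoal : ∑ n' ∈ Icc 1 N, (∑ ω ∈ Ω, p ω * gI g ((n' : ℤ) + Yv ω)) ^ 2 ≤ N / L ^ U := by
    refine hcore.trans ?_
    have t1 : (1 / L ^ V) ^ 2 * (X * (9 * L ^ 2)) ≤ N / L ^ U / 2 := by
      rw [hXr]
      calc (1 / L ^ V) ^ 2 * ((((Bc : ℝ) + 1) * N) * (9 * L ^ 2)) = (9 * ((Bc : ℝ) + 1)) * N * L ^ 2 / L ^ (2 * V) := by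
            have e2 : L ^ (2 * V) = (L ^ V) ^ 2 := by rw [← pow_mul, mul_comm]
            rw [e2, div_pow]
            ring
        _ ≤ N / L ^ U / 2 := by
            rw [div_div, div_le_div_iff₀ (by positivity) (by positivity)]
            have e3 : L ^ 2 * L ^ U * L ≤ L ^ (2 * V) := by
              rw [← pow_add, ← pow_succ]
              apply pow_le_pow_right₀ hL11
              omega
            have e4 : 0 ≤ L ^ 2 * L ^ U := by positivity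
            calc (9 * ((Bc : ℝ) + 1)) * N * L ^ 2 * (L ^ U * 2) = N * ((18 * ((Bc : ℝ) + 1)) * (L ^ 2 * L ^ U)) := by ring
              _ ≤ N * (L * (L ^ 2 * L ^ U)) := by
                  apply mul_le_mul_of_nonneg_left _ hN0.le
                  apply mul_le_mul_of_nonneg_right _ e4
                  linarith
              _ = N * (L ^ 2 * L ^ U * L) := by ring
              _ ≤ N * L ^ (2 * V) := mul_le_mul_of_nonneg_left e3 hN0.le
    have t2 : (Γ.card : ℝ) * (J * K) / M ≤ N / L ^ U / 2 := by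
      have hKM : K / M ≤ (((Bc : ℝ) + 1) * N) / L ^ U' := by
        rw [hK]
        have e1 : (M : ℝ) * X / LX ^ U' / M = X / LX ^ U' := by field_simp
        rw [e1]
        apply div_le_div₀ (by positivity) hXr.le (by positivity)
        exact pow_le_pow_left₀ hL0.le hLX1 _
      have hK0 : 0 ≤ K / M := by rw [hK]; positivity
      calc (Γ.card : ℝ) * (J * K) / M = (Γ.card : ℝ) * (J * (K / M)) := by ring
        _ ≤ L ^ T * ((6 * L ^ D) * ((((Bc : ℝ) + 1) * N) / L ^ U')) := by gcongr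
        _ = (6 * ((Bc : ℝ) + 1)) * N * L ^ (T + D) / L ^ U' := by
            rw [pow_add L T D]
            ring
        _ ≤ N / L ^ U / 2 := by
            rw [div_div, div_le_div_iff₀ (by positivity) (by positivity)]
            have e3 : L ^ (T + D) * L ^ U * L ≤ L ^ U' := by
              rw [← pow_add, ← pow_succ]
              apply pow_le_pow_right₀ hL11
              omega
            have e4 : 0 ≤ L ^ (T + D) * L ^ U := by positivity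
            calc (6 * ((Bc : ℝ) + 1)) * N * L ^ (T + D) * (L ^ U * 2) =
                N * ((12 * ((Bc : ℝ) + 1)) * (L ^ (T + D) * L ^ U)) := by ring
              _ ≤ N * (L * (L ^ (T + D) * L ^ U)) := by
                  apply mul_le_mul_of_nonneg_left _ hN0.le
                  apply mul_le_mul_of_nonneg_right _ e4
                  linarith
              _ = N * (L ^ (T + D) * L ^ U * L) := by ring
              _ ≤ N * L ^ U' := mul_le_mul_of_nonneg_left e3 hN0.le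
    linarith
  simp only [hg, gI_eqz] at hgoal
  exact hgoal


/-- sums of members of an interval which are congruent modulo a large number are equal -/
lemma En_dvd (r : ℕ) {ι : Type} (Ω : Finset ι) (Y : ι → ℤ) (M : ℕ) (a : ℤ) (W : ℕ) (hY : ∀ ω ∈ Ω, |Y ω - a| ≤ W)
    (hM : 2 * (r * W) < M) : ∀ v ∈ Fintype.piFinset (fun _ : Fin r => Ω), ∀ w ∈ Fintype.piFinset (fun _ : Fin r => Ω),
      (M : ℤ) ∣ ∑ i, Y (v i) - ∑ i, Y (w i) → ∑ i, Y (v i) = ∑ i, Y (w i) := by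
  intro v hv w hw hdvd
  rw [Fintype.mem_piFinset] at hv hw
  have hb : ∀ u : Fin r → ι, (∀ i, u i ∈ Ω) → |∑ i, Y (u i) - r * a| ≤ r * W := by
    intro u hu
    have e : ∑ i, Y (u i) - r * a = ∑ i, (Y (u i) - a) := by
      rw [sum_sub_distrib, sum_const, card_univ, Fintype.card_fin, nsmul_eq_mul]
    rw [e]
    refine (abs_sum_le_sum_abs _ _).trans ((sum_le_sum fun i _ => hY _ (hu i)).trans ?_)
    rw [sum_const, card_univ, Fintype.card_fin, nsmul_eq_mul]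
  have h5 := abs_le.1 (hb v hv)
  have h6 := abs_le.1 (hb w hw)
  have h7 : |∑ i, Y (v i) - ∑ i, Y (w i)| < M := by
    have h10 : ((2 * (r * W) : ℕ) : ℤ) < M := by exact_mod_cast hM
    push_cast at h10
    rw [abs_lt]
    constructor <;> linarith [h5.1, h5.2, h6.1, h6.2]
  have := Int.eq_zero_of_abs_lt_dvd hdvd h7
  omega

/-- the number of arcs -/
lemma card_arcs (r A V T : ℕ) (L : ℝ) (hL : 1 ≤ L) (hLb : 56 * 4 ^ r ≤ L) (hT : T = A + (2 * r + 1) * V + 1) (x y : ℝ)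
    (hx : x ≤ 56 * y * (2 / (1 / L ^ V)) ^ (2 * r) / (1 / L ^ V)) (hy : y ≤ L ^ A) : x ≤ L ^ T := by
  have hL0 : 0 < L := by linarith
  refine hx.trans ?_
  rw [mul_div_assoc, eta_pow _ (by positivity), ← pow_mul, mul_comm V, hT]
  calc 56 * y * (4 ^ r * L ^ ((2 * r + 1) * V)) ≤ 56 * L ^ A * (4 ^ r * L ^ ((2 * r + 1) * V)) := by
        apply mul_le_mul_of_nonneg_right _ (by positivity)
        exact mul_le_mul_of_nonneg_left hy (by norm_num)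
    _ = (56 * 4 ^ r) * (L ^ A * L ^ ((2 * r + 1) * V)) := by ring
    _ ≤ L * (L ^ A * L ^ ((2 * r + 1) * V)) := mul_le_mul_of_nonneg_right hLb (by positivity)
    _ = _ := by rw [pow_succ, pow_add]; ring

/-- **sparse windows in mean square**: laws of nearly minimal energy in an interval of length `W ≥ N^(1/3) log^C N` -/
theorem ms_ene (hA : S_ARC) (r A Bc U : ℕ) : ∃ C B0 : ℕ, ∀ E : ℕ, ∃ N₀ : ℕ, ∀ N : ℕ, N₀ ≤ N → ∀ z : ℕ,
    Real.log N ^ B0 ≤ z → (z : ℝ) ≤ Real.log N ^ E →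
    ∀ (ι : Type) (Ω : Finset ι) (p : ι → ℝ) (Yv : ι → ℤ), (∀ ω ∈ Ω, 0 ≤ p ω) → ∑ ω ∈ Ω, p ω ≤ 1 →
    (∀ ω ∈ Ω, |Yv ω| ≤ Bc * N) → ∀ (a : ℤ) (W : ℕ), (N : ℝ) ^ (1 / 3 : ℝ) * Real.log N ^ C ≤ W → W ≤ (Bc + 1) * N →
    (∀ ω ∈ Ω, |Yv ω - a| ≤ W) → (W : ℝ) * En r Ω p Yv ≤ Real.log N ^ A →
    ∑ n ∈ Icc 1 N, (∑ ω ∈ Ω, p ω * (lamI ((n : ℤ) + Yv ω) - lamzI z ((n : ℤ) + Yv ω))) ^ 2 ≤ N / Real.log N ^ U := by
  obtain ⟨V, hV⟩ := ms_arcs hA Bc U
  obtain ⟨T, hT⟩ : ∃ T, T = A + (2 * r + 1) * V + 1 := ⟨_, rfl⟩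
  obtain ⟨C, B0, h1⟩ := hV T 0
  refine ⟨C, B0, fun E => ?_⟩
  obtain ⟨N1, h1⟩ := h1 E
  obtain ⟨N2, h2⟩ := ev_L' (56 * 4 ^ r + 2)
  refine ⟨N1 + N2 + 3, fun N hN z hz1 hz2 ι Ω p Yv hp hp1 hY a W hW1 hW2 hYa hen => ?_⟩
  have hLL := h2 N (by omega)
  have hmain := h1 N (by omega) z hz1 hz2
  obtain ⟨L, hLdef⟩ : ∃ L, L = Real.log (N : ℝ) := ⟨_, rfl⟩
  rw [← hLdef] at hLL hmain hW1 hen ⊢
  have hk4 : (0 : ℝ) ≤ 56 * 4 ^ r := by positivity
  have hL1 : 1 ≤ L := by linarith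
  have hL0 : 0 < L := by linarith
  have hN1 : 1 ≤ N := by omega
  have hN0 : (0 : ℝ) < N := by exact_mod_cast hN1
  obtain ⟨M, hM⟩ : ∃ M, M = 4 * (r + 1) * (Bc + 1) * N := ⟨_, rfl⟩
  have hBN : 1 ≤ (Bc + 1) * N := Nat.mul_pos (by omega) hN1
  have hM2 : M = 4 * (r + 1) * ((Bc + 1) * N) := by rw [hM]; ring
  have hM1 : 1 ≤ M := by
    rw [hM2]
    exact Nat.mul_pos (by omega) hBN
  have hMB : 4 * (Bc + 1) * N ≤ M := by
    rw [hM2, mul_assoc 4 (Bc + 1) N]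
    exact Nat.mul_le_mul_right _ (by omega)
  have hWM : 2 * (r * W) < M := by
    have q1 : 2 * (r * W) ≤ 2 * (r * ((Bc + 1) * N)) := Nat.mul_le_mul_left _ (Nat.mul_le_mul_left _ hW2)
    have q2 : 2 * (r * ((Bc + 1) * N)) = (2 * r) * ((Bc + 1) * N) := by ring
    have q3 : (2 * r) * ((Bc + 1) * N) < (4 * (r + 1)) * ((Bc + 1) * N) := Nat.mul_lt_mul_of_pos_right (by omega) hBN
    omega
  have hWpos : 1 ≤ W := by
    have h2 : (0 : ℝ) < W := lt_of_lt_of_le (by positivity) hW1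
    exact_mod_cast h2
  have hW0 : (0 : ℝ) < W := by exact_mod_cast hWpos
  obtain ⟨Γ, hΓ1, hΓ2⟩ := cover r Ω p Yv M hM1 a (W : ℝ) (by exact_mod_cast hWpos) hp hp1 (by
    intro ω hω
    have := hYa ω hω
    rw [← Int.cast_abs]
    exact_mod_cast this) (En_dvd r Ω Yv M a W hYa hWM) (1 / L ^ V) (by positivity) (by
      rw [div_le_one (by positivity)]
      exact one_le_pow₀ hL1)
  have hcard : (Γ.card : ℝ) ≤ L ^ T := card_arcs r A V T L hL1 (by linarith) hT _ _ hΓ1 hen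
  apply hmain M hMB ι Ω p Yv hp hp1 hY W hW1 hW2 Γ hcard
  intro t ht
  by_contra hcon
  push Not at hcon
  obtain ⟨γ, hγ, k, hk⟩ := hΓ2 t hcon
  have h5 := ht γ hγ k
  rw [pow_zero, one_mul] at h5
  linarith

end Pool.Agent.Run7.h20.MK
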