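import Mathlib
import Pool.Agent.Run7.h20.MK.Ms
import Pool.Agent.Run7.h20.MK.Tup
import Pool.Agent.Run7.h27.MK.Gold

/-!
# The one-shift law for all laws of nearly minimal energy, any index type, any integer dilation
-/

set_option autoImplicit false

namespace Pool.Agent.Run7.h20.MK

open Finset
open Pool.Agent.H373R2.T7 (lamz lamI lamzI ev_L')
open Pool.Agent.Run7.h794.MK
open Pool.Agent.Run7.h27.MK (ZLaw Rep)

/-- the one-shift law for laws of nearly minimal energy -/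
theorem law_gen (hL : S_LAW') (r A B U : ℕ) : ∃ C B0 : ℕ, ∀ E : ℕ, ∃ N₀ : ℕ, ∀ N : ℕ, N₀ ≤ N → ∀ z : ℕ,
    Real.log N ^ B0 ≤ z → (z : ℝ) ≤ Real.log N ^ E →
    ∀ (ι : Type) (Ω : Finset ι) (p : ι → ℝ) (Yv : ι → ℤ), (∀ ω ∈ Ω, 0 ≤ p ω) → ∑ ω ∈ Ω, p ω ≤ 1 →
    (∀ ω ∈ Ω, |Yv ω| ≤ B * N) → ∀ (a : ℤ) (W : ℕ), (N : ℝ) ^ (1 / 3 : ℝ) * Real.log N ^ C ≤ W → W ≤ (B + 1) * N →
    (∀ ω ∈ Ω, |Yv ω - a| ≤ W) → (W : ℝ) * En r Ω p Yv ≤ Real.log N ^ A →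
    ∀ Kc : ℝ, 0 < Kc → ∀ G : ℕ → ℝ, (∀ n ∈ Icc 1 N, |G n| ≤ Kc) →
    ∑ ω ∈ Ω, p ω * |∑ n ∈ Icc 1 N, G n * (lamI ((n : ℤ) + Yv ω) - lamzI z ((n : ℤ) + Yv ω))| ≤
      Kc * (N / Real.log N ^ U) := by
  obtain ⟨B', hB'⟩ : ∃ B', B' = (r + 1) * (B + 1) := ⟨_, rfl⟩
  obtain ⟨V, hV⟩ := hL B' U
  obtain ⟨T, hT⟩ : ∃ T, T = A + (2 * r + 1) * V + 1 := ⟨_, rfl⟩
  obtain ⟨C, B0, h1⟩ := hV T 0
  refine ⟨C, B0, fun E => ?_⟩
  obtain ⟨N1, h1⟩ := h1 E
  obtain ⟨N2, h2⟩ := ev_L' (56 * 4 ^ r + 2)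
  refine ⟨N1 + N2 + 2 * (B' + 2) + 3, fun N hN z hz1 hz2 ι Ω p Yv hp hp1 hY a W hW1 hW2 hYa hen Kc hKc G hG => ?_⟩
  have hLL := h2 N (by omega)
  have hmain := h1 N (by omega) z hz1 hz2
  obtain ⟨L, hLdef⟩ : ∃ L, L = Real.log (N : ℝ) := ⟨_, rfl⟩
  rw [← hLdef] at hLL hmain hW1 hen ⊢
  have hk4 : (0 : ℝ) ≤ 56 * 4 ^ r := by positivity
  have hL1 : 1 ≤ L := by linarith
  have hL0 : 0 < L := by linarith
  have hN1 : 1 ≤ N := by omega
  have hN0 : (0 : ℝ) < N := by exact_mod_cast hN1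
  obtain ⟨M, hM⟩ : ∃ M, M = 2 * (B' + 2) * N := ⟨_, rfl⟩
  have hBN : 1 ≤ (B + 1) * N := Nat.mul_pos (by omega) hN1
  have hM1 : 1 ≤ M := by
    rw [hM]
    exact Nat.mul_pos (by omega) hN1
  have hMN : M ≤ N ^ 2 := by
    rw [hM, pow_two]
    exact Nat.mul_le_mul_right _ (by omega)
  have hWM : 2 * (r * W) < M := by
    have q1 : 2 * (r * W) ≤ 2 * (r * ((B + 1) * N)) := Nat.mul_le_mul_left _ (Nat.mul_le_mul_left _ hW2)
    have q2 : 2 * (r * ((B + 1) * N)) = (2 * r) * ((B + 1) * N) := by ring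
    have q3 : (2 * r) * ((B + 1) * N) < (2 * (r + 1)) * ((B + 1) * N) := Nat.mul_lt_mul_of_pos_right (by omega) hBN
    have q4 : (2 * (r + 1)) * ((B + 1) * N) = 2 * B' * N := by rw [hB']; ring
    have q5 : 2 * B' * N ≤ M := by
      rw [hM]
      exact Nat.mul_le_mul_right _ (by omega)
    omega
  have hWpos : 1 ≤ W := by
    have h2 : (0 : ℝ) < W := lt_of_lt_of_le (by positivity) hW1
    exact_mod_cast h2
  obtain ⟨Γ, hΓ1, hΓ2⟩ := cover r Ω p Yv M hM1 a (W : ℝ) (by exact_mod_cast hWpos) hp hp1 (by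
    intro ω hω
    have := hYa ω hω
    rw [← Int.cast_abs]
    exact_mod_cast this) (En_dvd r Ω Yv M a W hYa hWM) (1 / L ^ V) (by positivity) (by
      rw [div_le_one (by positivity)]
      exact one_le_pow₀ hL1)
  have hcard : (Γ.card : ℝ) ≤ L ^ T := card_arcs r A V T L hL1 (by linarith) hT _ _ hΓ1 hen
  apply hmain M (by rw [hM]) hMN ι Ω p Yv hp hp1 (fun ω hω => ?_) W hW1 Γ hcard (fun t ht => ?_) Kc hKc G hG
  · refine (hY ω hω).trans ?_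
    have h5 : B * N ≤ B' * N := by
      apply Nat.mul_le_mul_right
      rw [hB']
      nlinarith
    exact_mod_cast h5
  · by_contra hcon
    push Not at hcon
    obtain ⟨γ, hγ, k, hk⟩ := hΓ2 t hcon
    have h5 := ht γ hγ k
    rw [pow_zero, one_mul] at h5
    linarith

/-- the energy is invariant under injective affine maps -/
lemma En_affine (r : ℕ) {ι : Type} (Ω : Finset ι) (p : ι → ℝ) (Y : ι → ℤ) (κ cc : ℤ) (hκ : κ ≠ 0) :
    En r Ω p (fun v => cc + κ * Y v) = En r Ω p Y := by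
  unfold En
  apply sum_congr rfl
  intro v _
  apply sum_congr rfl
  intro w _
  have e : ∀ u : Fin r → ι, ∑ i, (cc + κ * Y (u i)) = r * cc + κ * ∑ i, Y (u i) := by
    intro u
    rw [sum_add_distrib, ← mul_sum, sum_const, card_univ, Fintype.card_fin, nsmul_eq_mul]
  rw [e, e]
  by_cases h : ∑ i, Y (v i) = ∑ i, Y (w i)
  · rw [if_pos (by rw [h]), if_pos h]
  · rw [if_neg, if_neg h]
    intro hh
    exact h (mul_left_cancel₀ hκ (add_left_cancel hh))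

/-- the one-shift law over the integers -/
theorem zlaw_ene (hL : S_LAW') (r A Bq : ℕ) (κ : ℤ) (hκ : κ ≠ 0) (Bc U : ℕ) : ∃ C : ℕ, ZLaw (Ene r A C Bq) κ Bc U := by
  obtain ⟨C, B0, h1⟩ := law_gen hL r (A + 1) (Bc + κ.natAbs * Bq) U
  refine ⟨C, B0, fun E => ?_⟩
  obtain ⟨N1, h1⟩ := h1 E
  obtain ⟨N2, h2⟩ := ev_L' (κ.natAbs + 1)
  refine ⟨N1 + N2 + 3, fun N hN Ω p hLaw => ?_⟩
  obtain ⟨hp0, hp1, hvN, a, W, hW1, hW2, hva, hen⟩ := hLaw
  refine ⟨hp0, fun cc hcc z hz1 hz2 Kc hKc G hG => ?_⟩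
  have hLL := h2 N (by omega)
  obtain ⟨L, hLdef⟩ : ∃ L, L = Real.log (N : ℝ) := ⟨_, rfl⟩
  have hmain := h1 N (by omega) z hz1 hz2 ℕ Ω p (fun v => cc + κ * (v : ℕ)) hp0 hp1.le
  rw [← hLdef] at hLL hmain hW1 hen ⊢
  have hk0 : (0 : ℝ) ≤ κ.natAbs := Nat.cast_nonneg _
  have hk1 : 1 ≤ κ.natAbs := Int.natAbs_pos.2 hκ
  have hL1 : 1 ≤ L := by linarith
  have hL0 : 0 < L := by linarith
  have hka : |κ| = (κ.natAbs : ℤ) := Int.abs_eq_natAbs κ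
  refine hmain (fun v hv => ?_) (cc + κ * (a : ℤ)) (κ.natAbs * W) ?_ ?_ (fun v hv => ?_) ?_ Kc hKc G hG
  · have h5 := abs_add_le cc (κ * (v : ℕ))
    rw [abs_mul, Nat.abs_cast] at h5
    have h6 : |κ| * (v : ℤ) ≤ |κ| * ((Bq : ℤ) * N) :=
      mul_le_mul_of_nonneg_left (by exact_mod_cast hvN v hv) (abs_nonneg κ)
    have h7 : ((Bc + κ.natAbs * Bq : ℕ) : ℤ) * N = Bc * N + |κ| * ((Bq : ℤ) * N) := by
      rw [hka]
      push_cast
      ring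
    rw [h7]
    linarith
  · refine hW1.trans ?_
    have : W ≤ κ.natAbs * W := Nat.le_mul_of_pos_left _ hk1
    exact_mod_cast this
  · calc κ.natAbs * W ≤ κ.natAbs * (Bq * N) := Nat.mul_le_mul_left _ hW2
      _ = (κ.natAbs * Bq) * N := by ring
      _ ≤ _ := Nat.mul_le_mul_right _ (by omega)
  · obtain ⟨e1, e2⟩ := hva v hv
    have e3 : cc + κ * (v : ℕ) - (cc + κ * (a : ℤ)) = κ * ((v : ℤ) - a) := by ring
    rw [e3, abs_mul, hka]
    push_cast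
    apply mul_le_mul_of_nonneg_left _ (by positivity)
    rw [abs_le]
    constructor <;> omega
  · rw [En_affine r Ω p (fun v => (v : ℤ)) κ cc hκ]
    push_cast
    calc (κ.natAbs : ℝ) * W * En r Ω p (fun v => (v : ℤ)) = κ.natAbs * (W * En r Ω p (fun v => (v : ℤ))) := by ring
      _ ≤ κ.natAbs * L ^ A := mul_le_mul_of_nonneg_left hen hk0
      _ ≤ L * L ^ A := mul_le_mul_of_nonneg_right (by linarith) (by positivity)
      _ = L ^ (A + 1) := by ring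

/-- the uniform distribution on a finite set, as a representation -/
lemma Rep_unif (S : Finset ℕ) (hS : S.Nonempty) : Rep S (fun s : ℕ => s) S (fun _ => 1 / (S.card : ℝ)) := by
  refine ⟨hS, fun j hj => hj, fun v hv => ?_⟩
  have : (S.filter fun j => j = v) = {v} := by
    ext w
    rw [mem_filter, mem_singleton]
    constructor
    · exact fun h => h.2
    · rintro rfl
      exact ⟨hv, rfl⟩
  rw [this, card_singleton]
  simp

end Pool.Agent.Run7.h20.MK
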