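import Mathlib
import Pool.Agent.Run7.h20.MK.Ms
import Pool.Agent.Run7.h20.MK.Tup

/-!
# The number of primes in the translates of a set of nearly minimal additive energy
-/

set_option autoImplicit false

namespace Pool.Agent.Run7.h20.MK

open Finset
open Pool.Agent.H373R2.T7 (lamz lamI lamzI Vz pz ev_L' lamI_nonneg)
open Pool.Agent.Run7.h794.MK

/-- the number of members `s` of `S` for which `n + s` is prime -/
def primesIn (S : Finset ℕ) (n : ℕ) : ℕ := (S.filter (fun s => (n + s).Prime)).card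

/-- the number of members `s` of `S` for which `n + s` has no prime factor `≤ z` -/
def roughIn (z : ℕ) (S : Finset ℕ) (n : ℕ) : ℕ :=
  (S.filter (fun s => ∀ p ∈ range (z + 1), p.Prime → ¬ p ∣ n + s)).card

lemma rough_sum (z : ℕ) (S : Finset ℕ) (n : ℕ) :
    ∑ s ∈ S, lamz z (n + s) = (roughIn z S n : ℝ) / Vz z := by
  classical
  unfold roughIn lamz
  have h : ∀ s : ℕ, (∀ p ∈ pz z, ¬ p ∣ n + s) ↔ (∀ p ∈ range (z + 1), p.Prime → ¬ p ∣ n + s) := by
    intro s
    constructor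
    · intro h p hz hp
      exact h p (Pool.Agent.H373R2.T7.mem_pz.2 ⟨by have := mem_range.1 hz; omega, hp⟩)
    · intro h p hp
      have := Pool.Agent.H373R2.T7.mem_pz.1 hp
      exact h p (mem_range.2 (by omega)) this.2
  simp only [h]
  rw [← sum_filter, sum_const, nsmul_eq_mul, div_eq_mul_inv]

/-- the prime powers which are no primes -/
lemma pp_sum (N s : ℕ) (X : ℝ) (hX : 1 ≤ X) (h : (N : ℝ) + s ≤ X) :
    ∑ n ∈ Icc 1 N, (if (n + s).Prime then 0 else ArithmeticFunction.vonMangoldt (n + s)) ≤ 2 * √X * Real.log X := by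
  classical
  refine le_trans ?_ (Chebyshev.psi_sub_theta_le hX)
  rw [Chebyshev.psi_sub_theta_eq_sum_not_prime]
  have h1 : ∑ n ∈ Icc 1 N, (if (n + s).Prime then 0 else ArithmeticFunction.vonMangoldt (n + s)) =
      ∑ n ∈ (Icc 1 N).filter (fun n => ¬ (n + s).Prime), ArithmeticFunction.vonMangoldt (n + s) := by
    rw [sum_filter]
    refine sum_congr rfl fun n _ => ?_
    by_cases h1 : (n + s).Prime <;> simp [h1]
  have hinj : Set.InjOn (fun n : ℕ => n + s) ((Icc 1 N).filter (fun n => ¬ (n + s).Prime) : Finset ℕ) := by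
    intro a _ b _ hab
    simp only at hab
    omega
  rw [h1, ← sum_image (f := fun m : ℕ => ArithmeticFunction.vonMangoldt m) hinj]
  apply sum_le_sum_of_subset_of_nonneg
  · intro m hm
    rw [mem_image] at hm
    obtain ⟨n, hn, rfl⟩ := hm
    rw [mem_filter, mem_Icc] at hn
    rw [mem_filter, mem_Ioc]
    refine ⟨⟨by omega, Nat.le_floor ?_⟩, hn.2⟩
    push_cast
    have : (n : ℝ) ≤ N := by exact_mod_cast hn.1.2
    linarith
  · intro m _ _
    exact ArithmeticFunction.vonMangoldt_nonneg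

lemma markov {ι : Type} (A : Finset ι) (f : ι → ℝ) (hf : ∀ i ∈ A, 0 ≤ f i) (δ S : ℝ) (hδ : 0 < δ)
    (h : ∑ i ∈ A, f i ≤ S) : ((A.filter fun i => δ < f i).card : ℝ) ≤ S / δ := by
  rw [le_div_iff₀ hδ]
  refine le_trans ?_ h
  calc ((A.filter fun i => δ < f i).card : ℝ) * δ = ∑ i ∈ A.filter (fun i => δ < f i), δ := by
        rw [sum_const, nsmul_eq_mul]
    _ ≤ ∑ i ∈ A.filter (fun i => δ < f i), f i := sum_le_sum fun i hi => (mem_filter.1 hi).2.le
    _ ≤ ∑ i ∈ A, f i := sum_le_sum_of_subset_of_nonneg (filter_subset _ _) fun i hi _ => hf i hi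

/-- a square root of `N` beats powers of the logarithm -/
lemma ev_sqrt (K : ℕ) : ∃ N₀ : ℕ, ∀ N : ℕ, N₀ ≤ N → Real.log N ^ K ≤ √(N : ℝ) := by
  have h1 := (isLittleO_log_rpow_rpow_atTop (K : ℝ) (show (0 : ℝ) < 1 / 2 by norm_num)).bound one_pos
  have h2 := tendsto_natCast_atTop_atTop (R := ℝ) |>.eventually h1
  obtain ⟨N₀, h3⟩ := Filter.eventually_atTop.1 h2
  refine ⟨N₀ + 1, fun N hN => ?_⟩
  have h4 := h3 N (by omega)
  rw [one_mul, Real.norm_of_nonneg (by positivity), Real.rpow_natCast] at h4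
  rw [Real.norm_of_nonneg (by positivity)] at h4
  rw [Real.sqrt_eq_rpow]
  exact h4

/-- the deterministic part: primes and the function of von Mangoldt in a translate -/
lemma win_det (S : Finset ℕ) (n : ℕ) (hn : 1 ≤ n) (R : ℝ) (hR : ∀ s ∈ S, (s : ℝ) / n ≤ R) :
    |(primesIn S n : ℝ) * Real.log n - ∑ s ∈ S, ArithmeticFunction.vonMangoldt (n + s)| ≤
      S.card * R + ∑ s ∈ S, (if (n + s).Prime then 0 else ArithmeticFunction.vonMangoldt (n + s)) := by
  classical
  have hn0 : (0 : ℝ) < n := by exact_mod_cast hn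
  have e1 : (primesIn S n : ℝ) * Real.log n = ∑ s ∈ S, (if (n + s).Prime then Real.log n else 0) := by
    unfold primesIn
    rw [← sum_filter, sum_const, nsmul_eq_mul]
  rw [e1, ← sum_sub_distrib]
  refine (abs_sum_le_sum_abs _ _).trans ?_
  have e2 : (S.card : ℝ) * R = ∑ _s ∈ S, R := by rw [sum_const, nsmul_eq_mul]
  rw [e2, ← sum_add_distrib]
  apply sum_le_sum
  intro s hs
  have hR0 : 0 ≤ R := (by positivity : (0 : ℝ) ≤ s / n).trans (hR s hs)
  by_cases hp : (n + s).Prime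
  · rw [if_pos hp, if_pos hp, add_zero, ArithmeticFunction.vonMangoldt_apply_prime hp]
    have h1 : Real.log n ≤ Real.log ((n + s : ℕ) : ℝ) := Real.log_le_log hn0 (by push_cast; have : (0 : ℝ) ≤ s := Nat.cast_nonneg _; linarith)
    rw [abs_sub_comm, abs_of_nonneg (by linarith)]
    refine le_trans ?_ (hR s hs)
    have h2 : Real.log ((n + s : ℕ) : ℝ) - Real.log n = Real.log (1 + s / n) := by
      rw [← Real.log_div (by positivity) hn0.ne']
      congr 1
      push_cast
      field_simp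
    rw [h2]
    have h3 := Real.log_le_sub_one_of_pos (show (0 : ℝ) < 1 + s / n by positivity)
    linarith
  · rw [if_neg hp, if_neg hp, zero_sub, abs_neg, abs_of_nonneg ArithmeticFunction.vonMangoldt_nonneg]
    linarith

open Classical in
/-- **sparse windows**: for all but `N / log^U N` of the `n ≤ N` the number of primes in `n + S` is determined by the number
of members without small prime factors -/
theorem ene_windows (hA : S_ARC) (r A U : ℕ) : ∃ C B : ℕ, ∀ E : ℕ, ∃ N₀ : ℕ, ∀ N : ℕ, N₀ ≤ N → ∀ z : ℕ,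
    Real.log N ^ B ≤ z → (z : ℝ) ≤ Real.log N ^ E → ∀ S : Finset ℕ, S.Nonempty → ∀ a H : ℕ,
    (N : ℝ) ^ (1 / 3 : ℝ) * Real.log N ^ C ≤ H → ((a + H : ℕ) : ℝ) * Real.log N ^ C ≤ N → (∀ s ∈ S, a ≤ s ∧ s ≤ a + H) →
    (H : ℝ) * energyS r S ≤ Real.log N ^ A * (S.card : ℝ) ^ (2 * r) →
    (((Icc 1 N).filter (fun n : ℕ => (S.card : ℝ) / Real.log N ^ U <
      |(primesIn S n : ℝ) * Real.log n - (roughIn z S n : ℝ) / Vz z|)).card : ℝ) ≤ N / Real.log N ^ U := by
  obtain ⟨C', B, hC⟩ := ms_ene hA r A 1 (3 * U + 3)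
  obtain ⟨C, hCd⟩ : ∃ C, C = C' + 2 * U + 3 := ⟨_, rfl⟩
  refine ⟨C, B, fun E => ?_⟩
  obtain ⟨N1, h1⟩ := hC E
  obtain ⟨N2, h2⟩ := ev_L' 200
  obtain ⟨N3, h3⟩ := ev_sqrt (2 * U + 3)
  refine ⟨N1 + N2 + N3 + 3, fun N hN z hz1 hz2 S hS a H hH1 hH2 hSa hen => ?_⟩
  have hLL := h2 N (by omega)
  have hsq := h3 N (by omega)
  have hmain := h1 N (by omega) z hz1 hz2 ℕ S (fun _ => 1 / (S.card : ℝ)) (fun s => (s : ℤ)) (fun _ _ => by positivity)
  obtain ⟨L, hLdef⟩ : ∃ L, L = Real.log (N : ℝ) := ⟨_, rfl⟩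
  rw [← hLdef] at hLL hsq hmain hH1 hH2 hen ⊢
  have hL1 : 1 ≤ L := by linarith
  have hL0 : 0 < L := by linarith
  have hN1 : 1 ≤ N := by omega
  have hN0 : (0 : ℝ) < N := by exact_mod_cast hN1
  have hc0 : (0 : ℝ) < S.card := by exact_mod_cast hS.card_pos
  have hLC : 1 ≤ L ^ C := one_le_pow₀ hL1
  have haH : a + H ≤ N := by
    have h5 : ((a + H : ℕ) : ℝ) ≤ N := by
      have : (0 : ℝ) ≤ ((a + H : ℕ) : ℝ) := Nat.cast_nonneg _
      nlinarith
    exact_mod_cast h5
  have hms := hmain (by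
      rw [sum_const, nsmul_eq_mul]
      rw [mul_one_div, div_self hc0.ne']) (by
      intro s hs
      have := (hSa s hs).2
      rw [Nat.abs_cast]
      push_cast
      omega) (a : ℤ) H (by
      refine le_trans ?_ hH1
      apply mul_le_mul_of_nonneg_left _ (by positivity)
      exact pow_le_pow_right₀ hL1 (by omega)) (by omega) (by
      intro s hs
      obtain ⟨e1, e2⟩ := hSa s hs
      rw [abs_le]
      constructor <;> omega) (by
      rw [En_unif, mul_div_assoc', div_le_iff₀ (by positivity)]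
      exact hen)
  -- the main error
  obtain ⟨D, hD⟩ : ∃ D : ℕ → ℝ, D = fun n : ℕ => ∑ s ∈ S, (1 / (S.card : ℝ)) * (lamI ((n : ℤ) + (s : ℤ)) - lamzI z ((n : ℤ) + (s : ℤ))) := ⟨_, rfl⟩
  have hD1 : ∀ n : ℕ, 1 ≤ n → (S.card : ℝ) * D n = ∑ s ∈ S, ArithmeticFunction.vonMangoldt (n + s) - (roughIn z S n : ℝ) / Vz z := by
    intro n hn
    rw [hD, ← rough_sum, ← sum_sub_distrib]
    simp only
    rw [mul_sum]
    apply sum_congr rfl
    intro s _
    unfold lamI lamzI
    have e : ((n : ℤ) + (s : ℤ)).toNat = n + s := by omega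
    rw [if_pos (by omega), if_pos (by omega), e]
    field_simp
  have hbad1 := markov (Icc 1 N) (fun n => D n ^ 2) (fun _ _ => sq_nonneg _) ((1 / (3 * L ^ U)) ^ 2) (N / L ^ (3 * U + 3))
    (by positivity) (by rw [hD]; exact hms)
  -- the prime powers
  obtain ⟨P, hP⟩ : ∃ P : ℕ → ℝ, P = fun n => ∑ s ∈ S, (if (n + s).Prime then 0 else ArithmeticFunction.vonMangoldt (n + s)) := ⟨_, rfl⟩
  have hPs : ∑ n ∈ Icc 1 N, P n ≤ S.card * (2 * √(2 * N) * Real.log (2 * N)) := by
    rw [hP]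
    simp only
    rw [sum_comm, ← nsmul_eq_mul, ← sum_const]
    apply sum_le_sum
    intro s hs
    have hN1r : (1 : ℝ) ≤ N := by exact_mod_cast hN1
    apply pp_sum N s (2 * N) (by linarith)
    have h5 : s ≤ N := (hSa s hs).2.trans haH
    have h6 : (s : ℝ) ≤ N := by exact_mod_cast h5
    linarith
  have hbad2 := markov (Icc 1 N) P (fun n _ => by
    rw [hP]
    apply sum_nonneg
    intro s _
    split_ifs
    · exact le_rfl
    · exact ArithmeticFunction.vonMangoldt_nonneg) ((S.card : ℝ) / (3 * L ^ U)) _ (by positivity) hPs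
  -- the union
  have hsub : (Icc 1 N).filter (fun n : ℕ => (S.card : ℝ) / L ^ U <
      |(primesIn S n : ℝ) * Real.log n - (roughIn z S n : ℝ) / Vz z|) ⊆
      ((Icc 1 N).filter (fun n => (1 / (3 * L ^ U)) ^ 2 < D n ^ 2) ∪ (Icc 1 N).filter (fun n => (S.card : ℝ) / (3 * L ^ U) < P n)) ∪
        Icc 1 ⌊(N : ℝ) / (4 * L ^ U)⌋₊ := by
    intro n hn
    rw [mem_filter, mem_Icc] at hn
    obtain ⟨⟨hn1, hn2⟩, hn3⟩ := hn
    by_contra hcon
    rw [mem_union, mem_union, mem_filter, mem_filter, mem_Icc, mem_Icc] at hcon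
    push Not at hcon
    obtain ⟨⟨g1, g2⟩, g3⟩ := hcon
    have g1 := g1 ⟨hn1, hn2⟩
    have g2 := g2 ⟨hn1, hn2⟩
    have g3 := g3 hn1
    have g4 : (N : ℝ) / (4 * L ^ U) < n := Nat.lt_of_floor_lt g3
    have hn0 : (0 : ℝ) < n := by exact_mod_cast hn1
    have g5 : |D n| ≤ 1 / (3 * L ^ U) := abs_le_of_sq_le_sq g1 (by positivity)
    have hR : ∀ s ∈ S, (s : ℝ) / n ≤ 1 / (3 * L ^ U) := by
      intro s hs
      have h5 : (s : ℝ) ≤ ((a + H : ℕ) : ℝ) := by exact_mod_cast (hSa s hs).2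
      have h6 : (s : ℝ) * L ^ C ≤ N := (mul_le_mul_of_nonneg_right h5 (by positivity)).trans hH2
      rw [div_le_div_iff₀ hn0 (by positivity), one_mul]
      rw [div_lt_iff₀ (by positivity)] at g4
      have h7 : (12 * L ^ U * L ^ U) * ((s : ℝ) * 1) ≤ N := by
        refine le_trans ?_ h6
        rw [mul_one, mul_comm]
        apply mul_le_mul_of_nonneg_left _ (Nat.cast_nonneg _)
        calc 12 * L ^ U * L ^ U ≤ L * (L ^ U * L ^ U) := by
              rw [mul_assoc]
              exact mul_le_mul_of_nonneg_right (by linarith) (by positivity)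
          _ = L ^ (2 * U + 1) := by ring
          _ ≤ L ^ C := pow_le_pow_right₀ hL1 (by omega)
      have h8 : (12 * L ^ U * L ^ U) * (s : ℝ) < n * (4 * L ^ U) := by linarith
      have h9 : 0 < L ^ U := by positivity
      have h10 : (s : ℝ) * (3 * L ^ U) * (4 * L ^ U) < n * (4 * L ^ U) := by linarith
      exact (lt_of_mul_lt_mul_right h10 (by positivity)).le
    have hdet := win_det S n hn1 (1 / (3 * L ^ U)) hR
    have e1 : (primesIn S n : ℝ) * Real.log n - (roughIn z S n : ℝ) / Vz z =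
        ((primesIn S n : ℝ) * Real.log n - ∑ s ∈ S, ArithmeticFunction.vonMangoldt (n + s)) + (S.card : ℝ) * D n := by
      rw [hD1 n hn1]
      ring
    have e2 : |(S.card : ℝ) * D n| ≤ S.card * (1 / (3 * L ^ U)) := by
      rw [abs_mul, Nat.abs_cast]
      exact mul_le_mul_of_nonneg_left g5 hc0.le
    rw [hP] at g2
    simp only at g2
    rw [e1] at hn3
    have e3 := abs_add_le ((primesIn S n : ℝ) * Real.log n - ∑ s ∈ S, ArithmeticFunction.vonMangoldt (n + s)) ((S.card : ℝ) * D n)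
    have e4 : (S.card : ℝ) / L ^ U = 3 * (S.card * (1 / (3 * L ^ U))) := by
      field_simp
    have e5 : (S.card : ℝ) / (3 * L ^ U) = S.card * (1 / (3 * L ^ U)) := by ring
    linarith
  have h5 : (((Icc 1 N).filter (fun n : ℕ => (S.card : ℝ) / L ^ U <
      |(primesIn S n : ℝ) * Real.log n - (roughIn z S n : ℝ) / Vz z|)).card : ℝ) ≤
      ((Icc 1 N).filter (fun n => (1 / (3 * L ^ U)) ^ 2 < D n ^ 2)).card +
        ((Icc 1 N).filter (fun n => (S.card : ℝ) / (3 * L ^ U) < P n)).card + (Icc 1 ⌊(N : ℝ) / (4 * L ^ U)⌋₊).card := by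
    have := (card_le_card hsub).trans ((card_union_le _ _).trans (Nat.add_le_add_right (card_union_le _ _) _))
    exact_mod_cast this
  refine h5.trans ?_
  have t1 : (N : ℝ) / L ^ (3 * U + 3) / (1 / (3 * L ^ U)) ^ 2 ≤ N / L ^ U / 4 := by
    rw [div_pow, one_pow, div_div_eq_mul_div, div_one, div_mul_eq_mul_div, div_div, div_le_div_iff₀ (by positivity) (by positivity)]
    calc (N : ℝ) * (3 * L ^ U) ^ 2 * (L ^ U * 4) = (36 * L ^ (3 * U)) * N := by ring
      _ ≤ (L ^ 3 * L ^ (3 * U)) * N := by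
          apply mul_le_mul_of_nonneg_right _ hN0.le
          apply mul_le_mul_of_nonneg_right _ (by positivity)
          have : L ≤ L ^ 3 := le_self_pow₀ hL1 (by norm_num)
          linarith
      _ = N * L ^ (3 * U + 3) := by rw [pow_add]; ring
  have t2 : (S.card : ℝ) * (2 * √(2 * N) * Real.log (2 * N)) / ((S.card : ℝ) / (3 * L ^ U)) ≤ N / L ^ U / 4 := by
    have e1 : (S.card : ℝ) * (2 * √(2 * N) * Real.log (2 * N)) / ((S.card : ℝ) / (3 * L ^ U)) =
        6 * L ^ U * (√(2 * N) * Real.log (2 * N)) := by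
      rw [div_div_eq_mul_div, div_eq_iff hc0.ne']
      ring
    have e2 : Real.log (2 * (N : ℝ)) ≤ 2 * L := by
      rw [Real.log_mul (by norm_num) hN0.ne', ← hLdef]
      have : Real.log 2 ≤ 1 := by
        have := Real.log_two_lt_d9
        linarith
      linarith
    have e3 : √(2 * (N : ℝ)) ≤ 2 * √N := by
      rw [Real.sqrt_mul (by norm_num)]
      apply mul_le_mul_of_nonneg_right _ (Real.sqrt_nonneg _)
      rw [Real.sqrt_le_left (by norm_num)]
      norm_num
    have e4 : 0 ≤ Real.log (2 * (N : ℝ)) := by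
      apply Real.log_nonneg
      have : (1 : ℝ) ≤ N := by exact_mod_cast hN1
      linarith
    have e5 : √(N : ℝ) * √(N : ℝ) = N := Real.mul_self_sqrt hN0.le
    rw [e1, div_div, le_div_iff₀ (by positivity)]
    calc 6 * L ^ U * (√(2 * N) * Real.log (2 * N)) * (L ^ U * 4) ≤ 6 * L ^ U * ((2 * √N) * (2 * L)) * (L ^ U * 4) := by gcongr
      _ = 96 * (L ^ (2 * U) * L) * √N := by ring
      _ ≤ L ^ (2 * U + 3) * √N := by
          apply mul_le_mul_of_nonneg_right _ (Real.sqrt_nonneg _)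
          have : 96 ≤ L ^ 2 := by nlinarith
          calc 96 * (L ^ (2 * U) * L) ≤ L ^ 2 * (L ^ (2 * U) * L) := mul_le_mul_of_nonneg_right this (by positivity)
            _ = L ^ (2 * U + 3) := by ring
      _ ≤ √N * √N := mul_le_mul_of_nonneg_right hsq (Real.sqrt_nonneg _)
      _ = N := e5
  have t3 : ((Icc 1 ⌊(N : ℝ) / (4 * L ^ U)⌋₊).card : ℝ) ≤ N / L ^ U / 4 := by
    rw [Nat.card_Icc, Nat.add_sub_cancel]
    refine (Nat.floor_le (by positivity)).trans (le_of_eq ?_)
    field_simp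
  have t4 : 0 ≤ (N : ℝ) / L ^ U := by positivity
  linarith

end Pool.Agent.Run7.h20.MK
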